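import Mathlib
import Pool.Agent.Y869.CE.Near

set_option autoImplicit false

/-!
# Critical exponents at most four, arbitrarily close to the Hilbert space

The `n`-dimensional Hilbert space has critical exponent `n`. In every dimension `n` and for every
`ε > 0` there is a complex norm, `(1 + ε)`-equivalent to the Hilbert norm, whose critical exponent is
at most `4`. In particular `2 ≤ M(n) ≤ 4` for all `n ≥ 2`, and `liminf M(n) = ∞` is false.
-/

namespace Pool.Agent.Results.MP_c5257f_an.NearHilbert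

/-- `q` is a positive integer such that every operator `a` on the complex normed space `E` with
`|a| ≤ 1` and `|a ^ q| = 1` has spectral radius `1`. -/
def Works (E : Type) [NormedAddCommGroup E] [NormedSpace ℂ E] (q : ℕ) : Prop :=
  1 ≤ q ∧ ∀ a : E →L[ℂ] E, ‖a‖ ≤ 1 → ‖a ^ q‖ = 1 → spectralRadius ℂ a = 1

/-- The critical exponent `q(E)`: the smallest positive integer that works for `E`
(`∞` if there is none). -/
noncomputable def critExp (E : Type) [NormedAddCommGroup E] [NormedSpace ℂ E] : ℕ∞ :=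
  ⨅ (q : ℕ) (_ : Works E q), (q : ℕ∞)

/-- `M(n)`: the minimum of `q(E)` over all `n`-dimensional complex normed spaces `E`. -/
noncomputable def minExp (n : ℕ) : ℕ∞ :=
  ⨅ (E : Type) (_ : NormedAddCommGroup E) (_ : NormedSpace ℂ E)
    (_ : FiniteDimensional ℂ E) (_ : Module.finrank ℂ E = n), critExp E

/-- The minimum of `q(E)` over the complex normed spaces `E` which are `(1 + ε)`-isomorphic to the
`n`-dimensional Hilbert space. -/
noncomputable def nearExp (ε : ℝ) (n : ℕ) : ℕ∞ :=
  ⨅ (E : Type) (_ : NormedAddCommGroup E) (_ : NormedSpace ℂ E)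
    (_ : ∃ e : E ≃ₗ[ℂ] EuclideanSpace ℂ (Fin n), ∀ x, ‖e x‖ ≤ ‖x‖ ∧ ‖x‖ ≤ (1 + ε) * ‖e x‖),
    critExp E

/-- **Critical exponents at most four, arbitrarily close to the Hilbert space.** -/
theorem result :
    (∀ ε : ℝ, 0 < ε → ∀ n : ℕ, 1 ≤ n → minExp n ≤ nearExp ε n ∧ nearExp ε n ≤ 4) ∧
    (∀ n : ℕ, 2 ≤ n → 2 ≤ minExp n) ∧
    ¬ (Filter.liminf minExp Filter.atTop = ⊤) := by
  have hle : ∀ (ε : ℝ) (n : ℕ), minExp n ≤ nearExp ε n := by
    intro ε n
    refine le_iInf fun E => le_iInf fun i1 => le_iInf fun i2 => le_iInf fun he => ?_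
    obtain ⟨e, -⟩ := he
    refine iInf_le_of_le E (iInf_le_of_le i1 (iInf_le_of_le i2 (iInf_le_of_le
      e.symm.finiteDimensional (iInf_le_of_le ?_ le_rfl))))
    rw [e.finrank_eq, finrank_euclideanSpace_fin]
  have h4 : ∀ ε : ℝ, 0 < ε → ∀ n : ℕ, nearExp ε n ≤ 4 := by
    intro ε hε n
    obtain ⟨E, i1, i2, e, he, hT⟩ := Pool.Agent.Y869.CE.complex_near n ε hε
    refine iInf_le_of_le E (iInf_le_of_le i1 (iInf_le_of_le i2 (iInf_le_of_le ⟨e, he⟩ ?_)))
    exact iInf_le_of_le 4 (iInf_le_of_le ⟨by norm_num, hT⟩ le_rfl)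
  refine ⟨fun ε hε n _ => ⟨hle ε n, h4 ε hε n⟩, fun n hn => ?_, fun h => ?_⟩
  · refine le_iInf fun E => le_iInf fun i1 => le_iInf fun i2 => le_iInf fun hfd =>
      le_iInf fun hE => ?_
    refine le_iInf fun q => le_iInf fun hq => ?_
    obtain ⟨T, hT1, hT2⟩ := Pool.Agent.Helper324.CE.exists_nilpotent (𝕜 := ℂ) (E := E)
      (by rw [hE]; exact hn)
    have h2 : 2 ≤ q := by
      by_contra hcon
      have h1 : q = 1 := by have := hq.1; omega
      have h3 := hq.2 T hT1.le (by rw [h1, pow_one]; exact hT1)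
      rw [Pool.Agent.Helper324.CE.spectralRadius_of_sq_zero hT2] at h3
      exact zero_ne_one h3
    exact_mod_cast h2
  · have h1 : Filter.liminf minExp Filter.atTop ≤
        Filter.liminf (fun _ : ℕ => (4 : ℕ∞)) Filter.atTop :=
      Filter.liminf_le_liminf (Filter.Eventually.of_forall fun n =>
        (hle 1 n).trans (h4 1 one_pos n))
    rw [Filter.liminf_const, h] at h1
    exact absurd h1 (by simp)

end Pool.Agent.Results.MP_c5257f_an.NearHilbert
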